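import Mathlib

set_option autoImplicit false

/-!
# The homology classes of highway paths need not form a polyhedron

A network with connected underlying graph, embedded in a surface so that every complementary region
is an open disc or an open annulus around one boundary circle, is described by a combinatorial map:
the edge ends (darts), the permutation `σ` giving the next dart counterclockwise around the same
vertex, and the involution `α` giving the other end of the edge. The surface is the closed oriented
surface obtained by gluing a disc into every face, minus an open disc in every face which is marked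
as a hole. Its first homology group is the group of cycles of the graph modulo the boundaries of the
faces which are not holes.

The example has three interior vertices `p`, `q`, `M`, the sources `u`, `s`, the sinks `v`, `w` and
the edges `u → p`, `p → M`, `p → q`, `q → p`, `q → M`, `s → q`, `M → v`, `M → w`. The surface is a
sphere with three holes. The highway paths from `u` to `v` are `u → p → M → v` and, for `n ≥ 0`,
the path `u → p → q → (p → q →)ⁿ M → v`. Their classes are `0` and `δ + n z` for a basis `z, δ` of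
the homology group, and `z` lies in every polyhedron containing all of them.
-/

namespace Pool.Agent.Results.MP_3d6951_co.NotPolyhedral

open Finset

/-- A connected oriented network, cellularly embedded in a compact connected oriented surface with
nonempty boundary. -/
structure SurfaceNetwork where
  /-- The darts, that is, the ends of the edges. -/
  D : Type
  /-- The vertices. -/
  V : Type
  /-- The faces. -/
  F : Type
  [fintypeD : Fintype D]
  [decEqD : DecidableEq D]
  [decEqV : DecidableEq V]
  [decEqF : DecidableEq F]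
  /-- The vertex of a dart. -/
  vert : D → V
  /-- The face to the left of a dart (seen from the vertex of the dart). -/
  face : D → F
  /-- The next dart counterclockwise around the vertex. -/
  σ : Equiv.Perm D
  /-- The other end of the edge. -/
  α : Equiv.Perm D
  /-- `isOut d` holds if the edge of `d` is directed away from the vertex of `d`. -/
  isOut : D → Bool
  /-- The faces in which an open disc is removed. -/
  hole : F → Prop
  α_α : ∀ d, α (α d) = d
  isOut_α : ∀ d, isOut (α d) = !isOut d
  vert_surj : Function.Surjective vert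
  vert_eq : ∀ d d', vert d = vert d' ↔ σ.SameCycle d d'
  face_surj : Function.Surjective face
  /-- The faces are the cycles of `d ↦ σ⁻¹ (α d)`: this is the next dart along the face to the left
  of `d`. -/
  face_eq : ∀ d d', face d = face d' ↔ (σ⁻¹ * α).SameCycle d d'
  connected : ∀ d d', Relation.EqvGen (fun x y => y = σ x ∨ y = α x) d d'
  exists_hole : ∃ f, hole f
  /-- Every vertex is a boundary vertex, of degree one and in a face with a hole, or an interior
  vertex with four darts in counterclockwise order `e`, `σ e`, `σ (σ e)`, `σ (σ (σ e))`, the first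
  two incoming and the last two outgoing. -/
  vertex_type : ∀ d, (σ d = d ∧ hole (face d)) ∨
    ∃ e, vert e = vert d ∧ isOut e = false ∧ isOut (σ e) = false ∧ isOut (σ (σ e)) = true ∧
      isOut (σ (σ (σ e))) = true ∧ σ (σ (σ (σ e))) = e

namespace SurfaceNetwork

attribute [instance] fintypeD decEqD decEqV decEqF

variable (N : SurfaceNetwork)

/-- The boundary vertices: the vertices with a single dart. -/
def IsBoundary (x : N.V) : Prop := ∀ d, N.vert d = x → N.σ d = d

/-- One step of a highway path: it arrives at a vertex along the edge of the outgoing dart `d`, that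
is through the dart `α d`, and leaves through the outgoing dart `d'`, unless `α d` is the second
incoming dart (the next dart is outgoing) and `d'` is the second outgoing dart. -/
def Step (d d' : N.D) : Prop :=
  N.isOut d' = true ∧ N.vert d' = N.vert (N.α d) ∧
    ¬ (N.isOut (N.σ (N.α d)) = true ∧ d' = N.σ (N.σ (N.α d)))

/-- The `1`-chain of one edge, as an antisymmetric function on the darts: `1` on the dart `d` and
`-1` on the other end. -/
def edge (d : N.D) : N.D → ℤ := fun x => (if x = d then 1 else 0) - (if x = N.α d then 1 else 0)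

/-- `Walk a b c`: there is a highway path with first edge `a`, last edge `b` (given by their
outgoing darts) and `1`-chain `c`. -/
inductive Walk : N.D → N.D → (N.D → ℤ) → Prop
  | single (a : N.D) (h : N.isOut a = true) : Walk a a (N.edge a)
  | snoc (a b d : N.D) (c : N.D → ℤ) (h : Walk a b c) (h' : N.Step b d) : Walk a d (c + N.edge d)

/-- `c` is the `1`-chain of a highway path from `u` to `v`. -/
def IsHighwayChain (u v : N.V) (c : N.D → ℤ) : Prop :=
  ∃ a b, N.vert a = u ∧ N.vert (N.α b) = v ∧ N.Walk a b c

/-- The net flow of a `1`-chain out of a vertex. -/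
def outflow (c : N.D → ℤ) (x : N.V) : ℤ := ∑ d, if N.vert d = x then c d else 0

/-- The `1`-chain of a path from `u` to `v`: an antisymmetric function with net outflow `1` at `u`,
`-1` at `v` and `0` elsewhere (for `u ≠ v`). -/
def IsPathChain (u v : N.V) (p : N.D → ℤ) : Prop :=
  (∀ d, p (N.α d) = - p d) ∧
    ∀ x, N.outflow p x = (if x = u then 1 else 0) - (if x = v then 1 else 0)

/-- The `1`-cycles. -/
def Z1 : AddSubgroup (N.D → ℤ) where
  carrier := {c | (∀ d, c (N.α d) = - c d) ∧ ∀ x, N.outflow c x = 0}
  zero_mem' := ⟨fun d => by simp, fun x => by simp [outflow]⟩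
  add_mem' := by
    rintro a b ⟨ha, ha'⟩ ⟨hb, hb'⟩
    refine ⟨fun d => ?_, fun x => ?_⟩
    · rw [Pi.add_apply, Pi.add_apply, ha, hb]; ring
    · have : N.outflow (a + b) x = N.outflow a x + N.outflow b x := by
        unfold outflow
        rw [← sum_add_distrib]
        apply sum_congr rfl
        intro d _
        split_ifs <;> simp
      rw [this, ha', hb', add_zero]
  neg_mem' := by
    rintro a ⟨ha, ha'⟩
    refine ⟨fun d => ?_, fun x => ?_⟩
    · rw [Pi.neg_apply, Pi.neg_apply, ha]
    · have : N.outflow (-a) x = - N.outflow a x := by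
        unfold outflow
        rw [← sum_neg_distrib]
        apply sum_congr rfl
        intro d _
        split_ifs <;> simp
      rw [this, ha', neg_zero]

/-- The boundary of a face. -/
def bdry (f : N.F) : N.D → ℤ := fun d =>
  (if N.face d = f then 1 else 0) - (if N.face (N.α d) = f then 1 else 0)

/-- The group generated by the boundaries of the faces which are not holes. -/
def B1 : AddSubgroup (N.D → ℤ) := AddSubgroup.closure {c | ∃ f, ¬ N.hole f ∧ c = N.bdry f}

/-- The first homology group of the surface. -/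
abbrev H1 : Type := N.Z1 ⧸ N.B1.addSubgroupOf N.Z1

/-- The set `H(u, v)` for the basepath with `1`-chain `p`: the classes of `q - p` for the highway
paths `q` from `u` to `v`. -/
def H (u v : N.V) (p : N.D → ℤ) : Set N.H1 :=
  {h | ∃ c, N.IsHighwayChain u v c ∧ ∃ z : N.Z1, (z : N.D → ℤ) = c - p ∧
    h = QuotientAddGroup.mk z}

end SurfaceNetwork

/-- A subset of an abelian group is a polyhedron if it is the set of solutions of finitely many
inequalities `φ x ≤ c` with homomorphisms `φ` to the reals. For the group `ℤ ^ n` these are the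
sets of integer points of polyhedra in `ℝ ^ n`. -/
def IsPolyhedron {G : Type} [AddCommGroup G] (X : Set G) : Prop :=
  ∃ (m : ℕ) (φ : Fin m → (G →+ ℝ)) (c : Fin m → ℝ), X = {x | ∀ i, φ i x ≤ c i}

/-! ### The example -/

section example_

/-- table of `σ` -/
def sigmaT : Fin 16 → Fin 16 := ![0, 7, 1, 9, 2, 11, 8, 4, 5, 12, 10, 6, 14, 13, 3, 15]

/-- table of the inverse of `σ` -/
def sigmaI : Fin 16 → Fin 16 := ![0, 2, 4, 14, 7, 8, 11, 1, 6, 3, 10, 5, 9, 13, 12, 15]

/-- table of `α` -/
def alphaT : Fin 16 → Fin 16 := ![1, 0, 3, 2, 5, 4, 7, 6, 9, 8, 11, 10, 13, 12, 15, 14]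

/-- table of the vertices: `u = 0`, `p = 1`, `q = 2`, `M = 3`, `s = 4`, `v = 5`, `w = 6` -/
def vertT : Fin 16 → Fin 7 := ![0, 1, 1, 3, 1, 2, 2, 1, 2, 3, 4, 2, 3, 5, 3, 6]

/-- table of the faces -/
def faceT : Fin 16 → Fin 3 := ![0, 0, 0, 1, 1, 2, 0, 2, 1, 0, 2, 2, 0, 0, 0, 0]

/-- the outgoing darts are the even ones -/
def outT : Fin 16 → Bool := ![true, false, true, false, true, false, true, false, true, false,
  true, false, true, false, true, false]

def sigmaP : Equiv.Perm (Fin 16) := ⟨sigmaT, sigmaI, by decide, by decide⟩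

def alphaP : Equiv.Perm (Fin 16) := ⟨alphaT, alphaT, by decide, by decide⟩

lemma sameCycle_of_rep {n k : ℕ} (τ : Equiv.Perm (Fin n)) (g : Fin n → Fin k)
    (hg : ∀ d, g (τ d) = g d) (rep : Fin k → Fin n) (e : Fin n → ℕ)
    (he : ∀ d, (τ ^ e d) (rep (g d)) = d) (d d' : Fin n) : g d = g d' ↔ τ.SameCycle d d' := by
  constructor
  · intro h
    have h1 : τ.SameCycle (rep (g d)) d := ⟨e d, by rw [zpow_natCast]; exact he d⟩
    have h2 : τ.SameCycle (rep (g d')) d' := ⟨e d', by rw [zpow_natCast]; exact he d'⟩
    rw [← h] at h2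
    exact h1.symm.trans h2
  · rintro ⟨i, hi⟩
    have hz : ∀ (i : ℤ) (x : Fin n), g ((τ ^ i) x) = g x := by
      intro i
      induction i using Int.induction_on with
      | zero => intro x; simp
      | succ i ih => intro x; rw [zpow_add_one, Equiv.Perm.mul_apply, ih, hg]
      | pred i ih =>
        intro x
        rw [zpow_sub_one, Equiv.Perm.mul_apply, ih]
        have := hg (τ⁻¹ x)
        rw [← Equiv.Perm.mul_apply, mul_inv_cancel, Equiv.Perm.one_apply] at this
        exact this.symm
    rw [← hi, hz]

/-- a dart one step closer to the dart `0` -/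
def nextT : Fin 16 → Fin 16 := ![0, 0, 1, 2, 2, 4, 8, 4, 5, 12, 11, 6, 14, 12, 3, 14]

lemma conn (d : Fin 16) :
    Relation.EqvGen (fun x y => y = sigmaP x ∨ y = alphaP x) d 0 := by
  have h1 : ∀ x, nextT x = sigmaP x ∨ nextT x = alphaP x := by decide
  have h2 : ∀ (k : ℕ) (x : Fin 16),
      Relation.EqvGen (fun x y => y = sigmaP x ∨ y = alphaP x) x (nextT^[k] x) := by
    intro k
    induction k with
    | zero => intro x; exact Relation.EqvGen.refl _
    | succ k ih =>
      intro x
      rw [Function.iterate_succ_apply]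
      exact Relation.EqvGen.trans _ _ _ (Relation.EqvGen.rel _ _ (h1 x)) (ih _)
  have h3 : ∀ x, nextT^[8] x = 0 := by decide
  have := h2 8 d
  rw [h3] at this
  exact this

/-- The example. -/
def EX : SurfaceNetwork where
  D := Fin 16
  V := Fin 7
  F := Fin 3
  vert := vertT
  face := faceT
  σ := sigmaP
  α := alphaP
  isOut := outT
  hole := fun _ => True
  α_α := by decide
  isOut_α := by decide
  vert_surj := by decide
  vert_eq := sameCycle_of_rep sigmaP vertT (by decide) ![0, 1, 5, 3, 10, 13, 15]
    ![0, 0, 3, 0, 2, 0, 2, 1, 3, 1, 0, 1, 2, 0, 3, 0] (by decide)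
  face_surj := by decide
  face_eq := sameCycle_of_rep (sigmaP⁻¹ * alphaP) faceT (by decide) ![0, 3, 5]
    ![0, 8, 1, 0, 1, 0, 7, 1, 2, 6, 3, 2, 4, 5, 2, 3] (by decide)
  connected := fun d d' => Relation.EqvGen.trans _ _ _ (conn d)
    (Relation.EqvGen.symm _ _ (conn d'))
  exists_hole := ⟨0, trivial⟩
  vertex_type := by
    simp only [and_true]
    decide

/-- the dart `d` of the example -/
abbrev dt (d : Fin 16) : EX.D := d

/-- the vertex `x` of the example -/
abbrev vt (x : Fin 7) : EX.V := x

lemma B1_eq : EX.B1 = ⊥ := by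
  unfold SurfaceNetwork.B1
  rw [AddSubgroup.closure_eq_bot_iff]
  rintro c ⟨f, hf, _⟩
  exact absurd trivial hf

/-- the chain of the path through the edge `p → M` -/
def c0 : EX.D → ℤ := show Fin 16 → ℤ from ![1, -1, 1, -1, 0, 0, 0, 0, 0, 0, 0, 0, 1, -1, 0, 0]

/-- the chain of the path through `p → q → M` -/
def c1 : EX.D → ℤ := show Fin 16 → ℤ from ![1, -1, 0, 0, 1, -1, 0, 0, 1, -1, 0, 0, 1, -1, 0, 0]

/-- the chain of the cycle `p → q → p` -/
def zc : EX.D → ℤ := show Fin 16 → ℤ from ![0, 0, 0, 0, 1, -1, 1, -1, 0, 0, 0, 0, 0, 0, 0, 0]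

instance (b d : EX.D) : Decidable (EX.Step b d) := by
  unfold SurfaceNetwork.Step
  infer_instance

lemma stepT : ∀ b d : Fin 16, EX.Step (dt b) (dt d) →
    (b = 0 → d = 2 ∨ d = 4) ∧ (b = 2 → d = 12 ∨ d = 14) ∧ (b = 4 → d = 6 ∨ d = 8) ∧
    (b = 6 → d = 4) ∧ (b = 8 → d = 12) ∧ b ≠ 12 ∧ b ≠ 14 := by
  decide

/-- the invariant of the highway paths starting in `u` -/
def Inv (b : Fin 16) (c : Fin 16 → ℤ) : Prop :=
  (b = 0 ∧ c 2 = 0 ∧ c 4 = 0) ∨ (b = 2 ∧ c 4 = 0) ∨ ((b = 4 ∨ b = 6 ∨ b = 8) ∧ c 2 = 0) ∨
    ((b = 12 ∨ b = 14) ∧ (c 2 = 0 ∨ c 4 = 0))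

lemma edge_two (d : Fin 16) : EX.edge (dt d) (dt 2) =
    (if d = 2 then 1 else 0) - (if d = 3 then 1 else 0) := by
  revert d
  decide

lemma edge_four (d : Fin 16) : EX.edge (dt d) (dt 4) =
    (if d = 4 then 1 else 0) - (if d = 5 then 1 else 0) := by
  revert d
  decide

lemma walk_inv (a b : EX.D) (c : EX.D → ℤ) (h : EX.Walk a b c) (ha : EX.vert a = vt 0) :
    Inv b c := by
  induction h with
  | single h =>
    have h1 : ∀ a : Fin 16, outT a = true → vertT a = 0 → a = 0 := by decide
    have h2 : a = dt 0 := h1 a h ha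
    subst h2
    left
    refine ⟨rfl, ?_, ?_⟩
    · exact edge_two 0
    · exact edge_four 0
  | snoc b d c h h' ih =>
    obtain ⟨s1, s2, s3, s4, s5, s6, s7⟩ := stepT b d h'
    have e2 : (c + EX.edge d) (dt 2) = c (dt 2) + ((if d = dt 2 then 1 else 0) -
      (if d = dt 3 then 1 else 0)) := by
      rw [Pi.add_apply]
      exact congrArg (c (dt 2) + ·) (edge_two d)
    have e4 : (c + EX.edge d) (dt 4) = c (dt 4) + ((if d = dt 4 then 1 else 0) -
      (if d = dt 5 then 1 else 0)) := by
      rw [Pi.add_apply]
      exact congrArg (c (dt 4) + ·) (edge_four d)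
    rcases ih with ⟨hb, h2, h4⟩ | ⟨hb, h4⟩ | ⟨hb, h2⟩ | ⟨hb, h24⟩
    · rcases s1 hb with hd | hd
      · right; left
        refine ⟨hd, e4.trans ?_⟩
        rw [hd, h4]
        rfl
      · right; right; left
        refine ⟨Or.inl hd, e2.trans ?_⟩
        rw [hd, h2]
        rfl
    · right; right; right
      rcases s2 hb with hd | hd
      · refine ⟨Or.inl hd, Or.inr (e4.trans ?_)⟩
        rw [hd, h4]
        rfl
      · refine ⟨Or.inr hd, Or.inr (e4.trans ?_)⟩
        rw [hd, h4]
        rfl
    · rcases hb with hb | hb | hb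
      · right; right; left
        rcases s3 hb with hd | hd
        · refine ⟨Or.inr (Or.inl hd), e2.trans ?_⟩
          rw [hd, h2]
          rfl
        · refine ⟨Or.inr (Or.inr hd), e2.trans ?_⟩
          rw [hd, h2]
          rfl
      · right; right; left
        have hd := s4 hb
        refine ⟨Or.inl hd, e2.trans ?_⟩
        rw [hd, h2]
        rfl
      · right; right; right
        have hd := s5 hb
        refine ⟨Or.inl hd, Or.inl (e2.trans ?_)⟩
        rw [hd, h2]
        rfl
    · rcases hb with hb | hb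
      · exact absurd hb s6
      · exact absurd hb s7

lemma chain_two_or_four (c : EX.D → ℤ) (h : EX.IsHighwayChain (vt 0) (vt 5) c) :
    c (dt 2) = 0 ∨ c (dt 4) = 0 := by
  obtain ⟨a, b, h1, _, h3⟩ := h
  rcases walk_inv a b c h3 h1 with ⟨_, h, _⟩ | ⟨_, h⟩ | ⟨_, h⟩ | ⟨_, h⟩
  · exact Or.inl h
  · exact Or.inr h
  · exact Or.inl h
  · exact h

lemma highway_c0 : EX.IsHighwayChain (vt 0) (vt 5) c0 := by
  refine ⟨dt 0, dt 12, rfl, rfl, ?_⟩
  have h1 := SurfaceNetwork.Walk.single (N := EX) (dt 0) rfl
  have h2 := SurfaceNetwork.Walk.snoc _ _ (dt 2) _ h1 (by decide)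
  have h3 := SurfaceNetwork.Walk.snoc _ _ (dt 12) _ h2 (by decide)
  have e : c0 = EX.edge (dt 0) + EX.edge (dt 2) + EX.edge (dt 12) := by
    have : ∀ x : Fin 16, c0 (dt x) =
        (EX.edge (dt 0) + EX.edge (dt 2) + EX.edge (dt 12)) (dt x) := by
      decide
    exact funext this
  rw [e]
  exact h3

lemma highway_cn (n : ℕ) : EX.IsHighwayChain (vt 0) (vt 5) (c1 + n • zc) := by
  have hn : ∀ n : ℕ, EX.Walk (dt 0) (dt 4) (EX.edge (dt 0) + EX.edge (dt 4) + n • zc) := by
    intro n
    induction n with
    | zero =>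
      have h1 := SurfaceNetwork.Walk.single (N := EX) (dt 0) rfl
      have h2 := SurfaceNetwork.Walk.snoc _ _ (dt 4) _ h1 (by decide)
      rw [zero_smul, add_zero]
      exact h2
    | succ n ih =>
      have h1 := SurfaceNetwork.Walk.snoc _ _ (dt 6) _ ih (by decide)
      have h2 := SurfaceNetwork.Walk.snoc _ _ (dt 4) _ h1 (by decide)
      have e : zc = EX.edge (dt 6) + EX.edge (dt 4) := by
        have : ∀ x : Fin 16, zc (dt x) = (EX.edge (dt 6) + EX.edge (dt 4)) (dt x) := by decide
        exact funext this
      have e2 : EX.edge (dt 0) + EX.edge (dt 4) + (n + 1) • zc =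
          EX.edge (dt 0) + EX.edge (dt 4) + n • zc + EX.edge (dt 6) + EX.edge (dt 4) := by
        rw [succ_nsmul]
        have e3 : n • zc + zc = n • zc + (EX.edge (dt 6) + EX.edge (dt 4)) := by rw [← e]
        rw [e3]
        abel
      rw [e2]
      exact h2
  refine ⟨dt 0, dt 12, rfl, rfl, ?_⟩
  have h1 := SurfaceNetwork.Walk.snoc _ _ (dt 8) _ (hn n) (by decide)
  have h2 := SurfaceNetwork.Walk.snoc _ _ (dt 12) _ h1 (by decide)
  have e : c1 = EX.edge (dt 0) + EX.edge (dt 4) + EX.edge (dt 8) + EX.edge (dt 12) := by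
    have : ∀ x : Fin 16, c1 (dt x) =
        (EX.edge (dt 0) + EX.edge (dt 4) + EX.edge (dt 8) + EX.edge (dt 12)) (dt x) := by
      decide
    exact funext this
  have e2 : c1 + n • zc = EX.edge (dt 0) + EX.edge (dt 4) + n • zc + EX.edge (dt 8) +
      EX.edge (dt 12) := by
    rw [e]
    abel
  rw [e2]
  exact h2

lemma path_c0 : EX.IsPathChain (vt 0) (vt 5) c0 := by
  constructor
  · have : ∀ d : Fin 16, c0 (alphaT d) = - c0 d := by decide
    exact this
  · have : ∀ x : Fin 7, (∑ d : Fin 16, if vertT d = x then c0 d else 0) =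
      (if x = 0 then 1 else 0) - (if x = 5 then 1 else 0) := by decide
    exact this

lemma path_c1 : EX.IsPathChain (vt 0) (vt 5) c1 := by
  constructor
  · have : ∀ d : Fin 16, c1 (alphaT d) = - c1 d := by decide
    exact this
  · have : ∀ x : Fin 7, (∑ d : Fin 16, if vertT d = x then c1 d else 0) =
      (if x = 0 then 1 else 0) - (if x = 5 then 1 else 0) := by decide
    exact this

lemma zc_mem : zc ∈ EX.Z1 := by
  constructor
  · have : ∀ d : Fin 16, zc (alphaT d) = - zc d := by decide
    exact this
  · have : ∀ x : Fin 7, (∑ d : Fin 16, if vertT d = x then zc d else 0) = 0 := by decide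
    exact this

lemma sub_mem_Z1 (N : SurfaceNetwork) (u v : N.V) (c p : N.D → ℤ) (hc : N.IsPathChain u v c)
    (hp : N.IsPathChain u v p) : c - p ∈ N.Z1 := by
  refine ⟨fun d => ?_, fun x => ?_⟩
  · rw [Pi.sub_apply, Pi.sub_apply, hc.1, hp.1]
    ring
  · have : N.outflow (c - p) x = N.outflow c x - N.outflow p x := by
      unfold SurfaceNetwork.outflow
      rw [← sum_sub_distrib]
      apply sum_congr rfl
      intro d _
      split_ifs <;> simp
    rw [this, hc.2, hp.2, sub_self]

end example_

/-- There are a network in a surface and two boundary vertices `u ≠ v` such that for every basepath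
(there is one) the set `H(u, v)` is not a polyhedron. -/
theorem result : ∃ (N : SurfaceNetwork) (u v : N.V), N.IsBoundary u ∧ N.IsBoundary v ∧ u ≠ v ∧
    (∃ p, N.IsPathChain u v p) ∧ ∀ p, N.IsPathChain u v p → ¬ IsPolyhedron (N.H u v p) := by
  refine ⟨EX, vt 0, vt 5, ?_, ?_, ?_, ⟨c0, path_c0⟩, ?_⟩
  · have : ∀ d : Fin 16, vertT d = 0 → sigmaT d = d := by decide
    exact this
  · have : ∀ d : Fin 16, vertT d = 5 → sigmaT d = d := by decide
    exact this
  · have : (0 : Fin 7) ≠ 5 := by decide
    exact this
  · rintro p hp ⟨m, φ, cc, hH⟩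
    let hb : EX.H1 := QuotientAddGroup.mk ⟨c0 - p, sub_mem_Z1 _ _ _ _ _ path_c0 hp⟩
    let h1 : EX.H1 := QuotientAddGroup.mk ⟨c1 - p, sub_mem_Z1 _ _ _ _ _ path_c1 hp⟩
    let hz : EX.H1 := QuotientAddGroup.mk ⟨zc, zc_mem⟩
    have hbH : hb ∈ EX.H (vt 0) (vt 5) p := ⟨c0, highway_c0, _, rfl, rfl⟩
    have hnH : ∀ n : ℕ, h1 + n • hz ∈ EX.H (vt 0) (vt 5) p := by
      intro n
      refine ⟨c1 + n • zc, highway_cn n,
        ⟨c1 - p, sub_mem_Z1 _ _ _ _ _ path_c1 hp⟩ + n • ⟨zc, zc_mem⟩, ?_, ?_⟩
      · simp only [AddSubgroup.coe_add, AddSubgroup.coe_nsmul]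
        abel
      · rfl
    rw [hH] at hbH hnH
    have hmem : hb + hz ∈ EX.H (vt 0) (vt 5) p := by
      rw [hH]
      intro i
      have h2 : φ i hz ≤ 0 := by
        by_contra hcon
        push Not at hcon
        obtain ⟨n, hn⟩ := exists_nat_gt ((cc i - φ i h1) / φ i hz)
        have h3 := hnH n i
        rw [map_add, map_nsmul, nsmul_eq_mul] at h3
        rw [div_lt_iff₀ hcon] at hn
        linarith
      have h3 := hbH i
      rw [map_add]
      linarith
    obtain ⟨c, hc, z, hz1, hz2⟩ := hmem
    have h4 : (QuotientAddGroup.mk (⟨c0 - p, sub_mem_Z1 _ _ _ _ _ path_c0 hp⟩ + ⟨zc, zc_mem⟩) :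
        EX.H1) = QuotientAddGroup.mk z := hz2
    rw [QuotientAddGroup.eq, AddSubgroup.mem_addSubgroupOf, B1_eq, AddSubgroup.mem_bot] at h4
    have h5 : c = c0 + zc := by
      rw [AddSubgroup.coe_add, AddSubgroup.coe_neg, hz1] at h4
      simp only [AddSubgroup.coe_add] at h4
      have : c - (c0 + zc) = 0 := by
        rw [← h4]
        abel
      exact sub_eq_zero.1 this
    rcases chain_two_or_four c hc with h | h
    · rw [h5] at h
      exact absurd h (by decide)
    · rw [h5] at h
      exact absurd h (by decide)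

end Pool.Agent.Results.MP_3d6951_co.NotPolyhedral
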